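import Pool.Agent.helper53.PV.SpecF

set_option autoImplicit false

open scoped Topology

namespace Pool.Agent.PV

open Pool.Agent.CZ

theorem FCL : FCL_stmt := by
  intro X₀ Y _ _ _ _ α₀ x₀ f hf
  have h1 : ESet α₀ x₀ f = ⋂ k : ℤ, {p : X₀ × (ℤ → Y) | (α₀ ^ k) p.1 = x₀ ∨ p.2 k = f ((α₀ ^ k) p.1)} := by
    ext p
    simp only [Set.mem_iInter]
    rfl
  rw [h1]
  refine isClosed_iInter fun k => ?_
  rw [← isOpen_compl_iff, isOpen_iff_mem_nhds]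
  intro p hp
  have hp1 : (α₀ ^ k) p.1 ≠ x₀ := fun h => hp (Or.inl h)
  have hp2 : p.2 k ≠ f ((α₀ ^ k) p.1) := fun h => hp (Or.inr h)
  have hc : Continuous fun q : X₀ × (ℤ → Y) => (α₀ ^ k) q.1 := (α₀ ^ k).continuous.comp continuous_fst
  have hU : ∀ᶠ q in 𝓝 p, (α₀ ^ k) q.1 ≠ x₀ :=
    hc.continuousAt.eventually (isOpen_compl_singleton.mem_nhds hp1)
  have hfc : ContinuousAt f ((α₀ ^ k) p.1) := hf.continuousAt (isOpen_compl_singleton.mem_nhds hp1)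
  have hfc2 : ContinuousAt (fun q : X₀ × (ℤ → Y) => f ((α₀ ^ k) q.1)) p :=
    ContinuousAt.comp (f := fun q : X₀ × (ℤ → Y) => (α₀ ^ k) q.1) (g := f) hfc hc.continuousAt
  have hk : ContinuousAt (fun q : X₀ × (ℤ → Y) => q.2 k) p :=
    ((continuous_apply k).comp continuous_snd).continuousAt
  have hne : ∀ᶠ q in 𝓝 p, q.2 k ≠ f ((α₀ ^ k) q.1) := by
    have h3 : Filter.Tendsto (fun q : X₀ × (ℤ → Y) => (q.2 k, f ((α₀ ^ k) q.1))) (𝓝 p)
        (𝓝 (p.2 k, f ((α₀ ^ k) p.1))) :=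
      Filter.Tendsto.prodMk_nhds (ContinuousAt.tendsto hk) (ContinuousAt.tendsto hfc2)
    have h4 : {z : Y × Y | z.1 ≠ z.2} ∈ 𝓝 (p.2 k, f ((α₀ ^ k) p.1)) :=
      (isClosed_diagonal.isOpen_compl).mem_nhds hp2
    exact h3 h4
  filter_upwards [hU, hne] with q hq1 hq2 hq
  rcases hq with h | h
  · exact hq1 h
  · exact hq2 h

end Pool.Agent.PV
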