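import Pool.Agent.helper53.PV.SpecF

set_option autoImplicit false

open scoped Topology

namespace Pool.Agent.PV

open Pool.Agent.CZ

theorem FFB : FFB_stmt := by
  intro X₀ Y _ _ α₀ x₀ f
  refine ⟨?_, ?_⟩
  · intro p hp
    apply Subtype.ext
    apply Prod.ext
    · rfl
    · funext k
      show p.1.2 k = f ((α₀ ^ k) p.1.1)
      rcases p.2 k with h | h
      · exact absurd h (hp k)
      · exact h
  · intro hn p k hk
    have hx : p.1.1 = (α₀ ^ (-k)) x₀ := by
      have h1 : (α₀ ^ k) p.1.1 = x₀ := hk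
      have h2 : (α₀ ^ (-k)) ((α₀ ^ k) p.1.1) = p.1.1 := by
        rw [zpow_zpow_apply, neg_add_cancel, zpow_zero]
        rfl
      exact h2.symm.trans (congrArg (fun z => (α₀ ^ (-k)) z) h1)
    apply Subtype.ext
    apply Prod.ext
    · exact hx
    · funext i
      show p.1.2 i = (if i = k then p.1.2 k else f ((α₀ ^ (i - k)) x₀))
      by_cases h : i = k
      · rw [if_pos h, h]
      · rw [if_neg h]
        have h3 : (α₀ ^ i) p.1.1 = (α₀ ^ (i - k)) x₀ := by
          rw [hx, zpow_zpow_apply, sub_eq_add_neg]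
        rcases p.2 i with h2 | h2
        · rw [h3] at h2
          exact absurd h2 (hn (i - k) (sub_ne_zero.2 h))
        · rw [h2, h3]

end Pool.Agent.PV
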