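import Pool.Agent.helper53.PV.SpecF

set_option autoImplicit false

open scoped Topology

namespace Pool.Agent.PV

open Pool.Agent.CZ

theorem FID_succ {X₀ Y : Type} [TopologicalSpace X₀] [TopologicalSpace Y] (α₀ : X₀ ≃ₜ X₀) (x₀ : X₀)
    (f : X₀ → Y) (n : ℤ) (p : ESp α₀ x₀ f) :
    (eHom α₀ x₀ f ^ (n + 1)) p = (eHom α₀ x₀ f ^ n) (eHom α₀ x₀ f p) := by
  rw [zpow_add_one]
  rfl

theorem FID_pred {X₀ Y : Type} [TopologicalSpace X₀] [TopologicalSpace Y] (α₀ : X₀ ≃ₜ X₀) (x₀ : X₀)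
    (f : X₀ → Y) (n : ℤ) (p : ESp α₀ x₀ f) :
    (eHom α₀ x₀ f ^ (n - 1)) p = (eHom α₀ x₀ f ^ n) ((eHom α₀ x₀ f).symm p) := by
  rw [zpow_sub_one]
  rfl

theorem FID : FID_stmt := by
  intro X₀ Y _ _ α₀ x₀ f
  refine ⟨fun x => rfl, fun p => rfl, fun k p => rfl, ?_, fun k y => rfl, ?_, ?_, ?_⟩
  · intro x
    apply Subtype.ext
    apply Prod.ext
    · rfl
    · funext k
      show f ((α₀ ^ k) (α₀ x)) = f ((α₀ ^ (k + 1)) x)
      rw [zpow_succ_apply]
  · intro k y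
    show (if k = k then y else f ((α₀ ^ (k - k)) x₀)) = y
    rw [if_pos rfl]
  · intro i k y h
    show (if i = k then y else f ((α₀ ^ (i - k)) x₀)) = f ((α₀ ^ (i - k)) x₀)
    rw [if_neg h]
  · intro n
    induction n using Int.induction_on with
    | zero =>
      intro p
      rw [zpow_zero, zpow_zero]
      refine ⟨rfl, fun k => ?_⟩
      rw [add_zero]
      rfl
    | succ n ih =>
      intro p
      rw [FID_succ]
      obtain ⟨h1, h2⟩ := ih (eHom α₀ x₀ f p)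
      refine ⟨?_, fun k => ?_⟩
      · rw [h1]
        show (α₀ ^ (n : ℤ)) (α₀ (ePr α₀ x₀ f p)) = _
        rw [zpow_succ_apply]
      · rw [h2]
        show p.1.2 (k + n + 1) = p.1.2 (k + (n + 1))
        rw [add_assoc]
    | pred n ih =>
      intro p
      rw [FID_pred]
      obtain ⟨h1, h2⟩ := ih ((eHom α₀ x₀ f).symm p)
      refine ⟨?_, fun k => ?_⟩
      · rw [h1]
        show (α₀ ^ (-(n : ℤ))) (α₀.symm (ePr α₀ x₀ f p)) = _
        rw [zpow_pred_apply]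
      · rw [h2]
        show p.1.2 (k + -n - 1) = p.1.2 (k + (-n - 1))
        rw [add_sub_assoc]

end Pool.Agent.PV
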