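import Pool.Agent.helper53.PV.SpecF

set_option autoImplicit false

open scoped Topology

namespace Pool.Agent.PV

open Pool.Agent.CZ

theorem FMZ (hFCL : FCL_stmt) : FMZ_stmt := by
  intro X₀ Y _ _ _ _ _ _ α₀ x₀ f hf
  have : SecondCountableTopology X₀ := by
    let _ := TopologicalSpace.metrizableSpaceMetric X₀
    infer_instance
  have : SecondCountableTopology Y := by
    let _ := TopologicalSpace.metrizableSpaceMetric Y
    infer_instance
  have hcl : IsClosed (ESet α₀ x₀ f) := hFCL X₀ Y α₀ x₀ f hf
  refine ⟨isCompact_iff_compactSpace.1 hcl.isCompact, ?_, ?_⟩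
  · exact TopologicalSpace.metrizableSpace_of_t3_secondCountable _
  · intro _
    exact Infinite.of_injective (eSec α₀ x₀ f) (fun a b h => congrArg (fun p : ESp α₀ x₀ f => p.1.1) h)

end Pool.Agent.PV
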