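import Pool.Agent.helper53.PV.SpecF

set_option autoImplicit false

open scoped Topology

namespace Pool.Agent.PV

open Pool.Agent.CZ

theorem FRL (hFID : FID_stmt) : FRL_stmt := by
  intro X₀ Y _ _ α₀ x₀ f
  obtain ⟨h1, h2, h3, h4, h5, h6, h7, h8⟩ := hFID X₀ Y α₀ x₀ f
  refine ⟨?_, ?_, ?_, ?_, ?_, ?_⟩
  · intro k ψ
    apply ContinuousMap.ext
    intro y
    show ψ (eEv α₀ x₀ f k (eIn α₀ x₀ f k y)) = ψ y
    rw [h6]
  · intro i k ψ hik
    apply ContinuousMap.ext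
    intro y
    show ψ (eEv α₀ x₀ f k (eIn α₀ x₀ f i y)) = ψ (f ((α₀ ^ (k - i)) x₀))
    rw [h7 k i y (Ne.symm hik)]
  · intro k g
    apply ContinuousMap.ext
    intro y
    show g (ePr α₀ x₀ f (eIn α₀ x₀ f k y)) = g ((α₀ ^ (-k)) x₀)
    rw [h5]
  · intro k ψ
    apply ContinuousMap.ext
    intro p
    rfl
  · intro g
    apply ContinuousMap.ext
    intro p
    rfl
  · intro g g' h
    apply ContinuousMap.ext
    intro x
    have h9 : ePul α₀ x₀ f g (eSec α₀ x₀ f x) = ePul α₀ x₀ f g' (eSec α₀ x₀ f x) := by rw [h]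
    exact h9

end Pool.Agent.PV
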