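import Pool.Agent.helper77.PV.SpecB

set_option autoImplicit false

open scoped Matrix Topology
open Filter

namespace Pool.Agent.PV

open Pool.Agent.CZ

attribute [local instance] Matrix.linftyOpNormedRing Matrix.linftyOpNormedAlgebra

theorem QIN_uM {A : Type} [Ring A] (κ : Type) [Fintype κ] [DecidableEq κ] (u : Aˣ) :
    (uM κ u : Matrix κ κ A) = Matrix.diagonal fun _ => (u : A) := rfl

theorem QIN_cov {B A : Type} [NormedRing B] [NormedAlgebra ℂ B] [NormedRing A] [NormedAlgebra ℂ A]
    (al : B ≃ₐ[ℂ] B) (io : B →ₐ[ℂ] A) (u : Aˣ) (hcov : ∀ b, (u : A) * io b = io (al b) * (u : A))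
    (κ : Type) [Fintype κ] [DecidableEq κ] (P : Matrix κ κ B) :
    (uM κ u : Matrix κ κ A) * P.map io = (P.map al).map io * (uM κ u : Matrix κ κ A) := by
  rw [QIN_uM]
  ext i j
  rw [Matrix.diagonal_mul, Matrix.mul_diagonal]
  exact hcov (P i j)

theorem QIN_mm {R S : Type} [Semiring R] [Semiring S] {κ : Type} [Fintype κ] {F : Type} [FunLike F R S] [RingHomClass F R S]
    (f : F) (M N : Matrix κ κ R) : (M * N).map f = M.map f * N.map f := by
  ext i j
  simp only [Matrix.map_apply, Matrix.mul_apply, map_sum, map_mul]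

theorem QIN (hQDM : QDM_stmt) (hZC : ZC_stmt) (hK0E : K0E_stmt) (hK0S : K0S_stmt) : QIN_stmt := by
  intro B A _ _ _ _ _ _ al io u c hZ κ _ _ a b L P Q hP hQ hL haP hbP
  obtain ⟨-, hc1, hc2, -, -, -, -⟩ := hZC B A al io u c hZ
  have hD := hQDM B A al io u c hZ κ a b L hL
  set X : Matrix κ κ A := ((L⁻¹ : (Matrix κ κ A)ˣ) : Matrix κ κ A) with hX
  have hLP : (L : Matrix κ κ A) * P.map io = Q.map io * (L : Matrix κ κ A) := by
    rw [hL, add_mul, mul_add, mul_assoc, QIN_cov al io u hZ.cov, ← mul_assoc, ← mul_assoc, ← QIN_mm io, ← QIN_mm io,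
      ← QIN_mm io, ← QIN_mm io, haP, hbP]
  have hXP : P.map io * X = X * Q.map io := by
    have h1 : X * ((L : Matrix κ κ A) * P.map io) * X = X * (Q.map io * (L : Matrix κ κ A)) * X := by rw [hLP]
    have h2 : X * (L : Matrix κ κ A) = 1 := L.inv_mul
    have h3 : (L : Matrix κ κ A) * X = 1 := L.mul_inv
    calc P.map io * X = (X * (L : Matrix κ κ A)) * P.map io * X := by rw [h2, one_mul]
      _ = X * ((L : Matrix κ κ A) * P.map io) * X := by rw [mul_assoc X]
      _ = X * (Q.map io * (L : Matrix κ κ A)) * X := h1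
      _ = X * Q.map io * ((L : Matrix κ κ A) * X) := by simp only [mul_assoc]
      _ = X * Q.map io := by rw [h3, mul_one]
  have hr : ∀ n : ℤ, P * rL c L n = rL c L n * Q.map (al ^ n : B ≃ₐ[ℂ] B) := by
    intro n
    have h1 : (P.map io * X).map (c n) = P * rL c L n := by
      ext i j
      simp only [Matrix.map_apply, Matrix.mul_apply, map_sum, hc1, rL, ← hX]
    have h2 : (X * Q.map io).map (c n) = rL c L n * Q.map (al ^ n : B ≃ₐ[ℂ] B) := by
      ext i j
      simp only [Matrix.map_apply, Matrix.mul_apply, map_sum, hc2, rL, ← hX]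
    rw [← h1, ← h2, hXP]
  have hsm : ∀ M : Matrix κ κ B, (M.map al).map al.symm = M := by
    intro M; ext i j; exact al.symm_apply_apply _
  have hms : ∀ M : Matrix κ κ B, (M.map al.symm).map al = M := by
    intro M; ext i j; exact al.apply_symm_apply _
  set r := rL c L with hrdef
  set q := qL al c b L with hq
  set q' := qL' al c b L with hq'
  have e0 : P * r 0 = r 0 * Q := by
    have h := hr 0
    have h2 : Q.map ((al ^ (0 : ℤ) : B ≃ₐ[ℂ] B)) = Q := by
      ext i j; rw [zpow_zero]; rfl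
    rw [h2] at h
    exact h
  have e1 : P * r (-1) = r (-1) * Q.map al.symm := by
    have h := hr (-1)
    have h2 : Q.map ((al ^ (-1 : ℤ) : B ≃ₐ[ℂ] B)) = Q.map al.symm := by
      ext i j; rw [zpow_neg_one]; rfl
    rw [h2] at h
    exact h
  have hqd : q = r (-1) * b.map al.symm := rfl
  have hq'd : q' = b * (r (-1)).map al := rfl
  have hbs : b.map al.symm * P = Q.map al.symm * b.map al.symm := by
    have h := congrArg (fun M : Matrix κ κ B => M.map al.symm) hbP
    simp only [QIN_mm al.symm] at h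
    rw [hsm] at h
    exact h
  have e1a : P.map al * (r (-1)).map al = (r (-1)).map al * Q := by
    have h := congrArg (fun M : Matrix κ κ B => M.map al) e1
    simp only [QIN_mm al] at h
    rw [hms] at h
    exact h
  have hqP : q * P = P * q := by
    rw [hqd, mul_assoc, hbs, ← mul_assoc, ← e1, mul_assoc]
  have hqQ : q' * Q = Q * q' := by
    rw [hq'd, mul_assoc, ← e1a, ← mul_assoc, hbP, mul_assoc]
  have hqq : q * q = q := hD.qq
  have hqq' : q' * q' = q' := hD.qq'
  have hPq : (P * q) * (P * q) = P * q := by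
    calc (P * q) * (P * q) = P * (q * P) * q := by simp only [mul_assoc]
      _ = (P * P) * (q * q) := by rw [hqP]; simp only [mul_assoc]
      _ = P * q := by rw [hP, hqq]
  have hQq : (Q * q') * (Q * q') = Q * q' := by
    calc (Q * q') * (Q * q') = Q * (q' * Q) * q' := by simp only [mul_assoc]
      _ = (Q * Q) * (q' * q') := by rw [hqQ]; simp only [mul_assoc]
      _ = Q * q' := by rw [hQ, hqq']
  have hqP1 : (1 - q) * P = P * (1 - q) := by rw [sub_mul, mul_sub, one_mul, mul_one, hqP]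
  have hqQ1 : (1 - q') * Q = Q * (1 - q') := by rw [sub_mul, mul_sub, one_mul, mul_one, hqQ]
  have h1q : (1 - q) * (1 - q) = 1 - q := by rw [sub_mul, one_mul, mul_sub, mul_one, hqq]; abel
  have h1q' : (1 - q') * (1 - q') = 1 - q' := by rw [sub_mul, one_mul, mul_sub, mul_one, hqq']; abel
  have hq1 : q * (1 - q) = 0 := by rw [mul_sub, mul_one, hqq, sub_self]
  have h1qq : (1 - q) * q = 0 := by rw [sub_mul, one_mul, hqq, sub_self]
  have hq1' : q' * (1 - q') = 0 := by rw [mul_sub, mul_one, hqq', sub_self]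
  have h1qq' : (1 - q') * q' = 0 := by rw [sub_mul, one_mul, hqq', sub_self]
  have hP1 : (P * (1 - q)) * (P * (1 - q)) = P * (1 - q) := by
    calc (P * (1 - q)) * (P * (1 - q)) = P * ((1 - q) * P) * (1 - q) := by simp only [mul_assoc]
      _ = (P * P) * ((1 - q) * (1 - q)) := by rw [hqP1]; simp only [mul_assoc]
      _ = P * (1 - q) := by rw [hP, h1q]
  have hQ1 : (Q * (1 - q')) * (Q * (1 - q')) = Q * (1 - q') := by
    calc (Q * (1 - q')) * (Q * (1 - q')) = Q * ((1 - q') * Q) * (1 - q') := by simp only [mul_assoc]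
      _ = (Q * Q) * ((1 - q') * (1 - q')) := by rw [hqQ1]; simp only [mul_assoc]
      _ = Q * (1 - q') := by rw [hQ, h1q']
  have hsP : P * q + P * (1 - q) = P := by rw [← mul_add]; simp
  have hsQ : Q * q' + Q * (1 - q') = Q := by rw [← mul_add]; simp
  have kP : k0 P hP = k0 (P * q) hPq + k0 (P * (1 - q)) hP1 := by
    have hs : (P * q + P * (1 - q)) * (P * q + P * (1 - q)) = P * q + P * (1 - q) := by rw [hsP, hP]
    have h1 := hK0S B κ (P * q) (P * (1 - q)) hPq hP1 hs
      (by calc (P * q) * (P * (1 - q)) = P * (q * P) * (1 - q) := by simp only [mul_assoc]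
            _ = P * P * (q * (1 - q)) := by rw [hqP]; simp only [mul_assoc]
            _ = 0 := by rw [hq1, mul_zero])
      (by calc (P * (1 - q)) * (P * q) = P * ((1 - q) * P) * q := by simp only [mul_assoc]
            _ = P * P * ((1 - q) * q) := by rw [hqP1]; simp only [mul_assoc]
            _ = 0 := by rw [h1qq, mul_zero])
    rw [← h1]
    congr 1
    exact hsP.symm
  have kQ : k0 Q hQ = k0 (Q * q') hQq + k0 (Q * (1 - q')) hQ1 := by
    have hs : (Q * q' + Q * (1 - q')) * (Q * q' + Q * (1 - q')) = Q * q' + Q * (1 - q') := by rw [hsQ, hQ]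
    have h1 := hK0S B κ (Q * q') (Q * (1 - q')) hQq hQ1 hs
      (by calc (Q * q') * (Q * (1 - q')) = Q * (q' * Q) * (1 - q') := by simp only [mul_assoc]
            _ = Q * Q * (q' * (1 - q')) := by rw [hqQ]; simp only [mul_assoc]
            _ = 0 := by rw [hq1', mul_zero])
      (by calc (Q * (1 - q')) * (Q * q') = Q * ((1 - q') * Q) * q' := by simp only [mul_assoc]
            _ = Q * Q * ((1 - q') * q') := by rw [hqQ1]; simp only [mul_assoc]
            _ = 0 := by rw [h1qq', mul_zero])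
    rw [← h1]
    congr 1
    exact hsQ.symm
  have k1 : k0 (P * (1 - q)) hP1 = k0 (Q * (1 - q')) hQ1 := by
    refine hK0E B κ κ _ _ hP1 hQ1 (P * r 0) a ?_ ?_
    · rw [mul_assoc, hD.r0a]
    · rw [← mul_assoc, haP, mul_assoc, hD.ar0]
  have hQs : (Q * q').map al.symm * (Q * q').map al.symm = (Q * q').map al.symm := by
    rw [← QIN_mm al.symm, hQq]
  have k2 : k0 (P * q) hPq = k0 ((Q * q').map al.symm) hQs := by
    refine hK0E B κ κ _ _ hPq hQs (P * r (-1)) (b.map al.symm) ?_ ?_
    · rw [mul_assoc, ← hqd]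
    · rw [← mul_assoc, hbs, hq'd, QIN_mm al.symm, QIN_mm al.symm, hsm, mul_assoc]
  have hQss : ((Q * q').map al.symm).map (al : B →ₐ[ℂ] B).toRingHom * ((Q * q').map al.symm).map (al : B →ₐ[ℂ] B).toRingHom
      = ((Q * q').map al.symm).map (al : B →ₐ[ℂ] B).toRingHom := by
    rw [← QIN_mm, hQs]
  have k3 : k0a al (k0 ((Q * q').map al.symm) hQs) = k0 (Q * q') hQq := by
    have h1 := k0map_k0 (al : B →ₐ[ℂ] B).toRingHom ((Q * q').map al.symm) hQs hQss
    have h2 : ((Q * q').map al.symm).map (al : B →ₐ[ℂ] B).toRingHom = Q * q' := hms _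
    show k0map (al : B →ₐ[ℂ] B).toRingHom _ = _
    rw [h1]
    congr 1
  refine ⟨k0 ((Q * q').map al.symm) hQs, ?_⟩
  rw [k3, kP, kQ, k1, k2]
  abel

end Pool.Agent.PV
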