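import Pool.Agent.helper72.PV.SpecH

set_option autoImplicit false

open Finset

namespace Pool.Agent.PVH

open Pool.Agent.PV Pool.Agent.CZ

theorem RDC_two {H : Type} [AddCommGroup H] {P : H → Prop} {g : H} (hS : SOG P g) (x y₁ y₂ : H)
    (hx : P x) (h1 : P y₁) (h2 : P y₂) (h12 : P (y₁ + y₂ - x)) :
    ∃ z₁ z₂, P z₁ ∧ P z₂ ∧ P (y₁ - z₁) ∧ P (y₂ - z₂) ∧ z₁ + z₂ = x := by
  obtain ⟨c, c1, c2, c3, c4⟩ := hS.intp 0 (x - y₂) x y₁ (by simpa using hx)
    (by rw [sub_sub_cancel]; exact h2) (by simpa using h1)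
    (by rw [show y₁ - (x - y₂) = y₁ + y₂ - x by abel]; exact h12)
  refine ⟨c, x - c, by simpa using c1, c3, c4, ?_, by abel⟩
  rw [show y₂ - (x - c) = c - (x - y₂) by abel]
  exact c2

theorem RDC : RDC_stmt := by
  intro H _ P g hS ι s hs
  classical
  induction hs using Finset.Nonempty.cons_induction with
  | singleton a =>
    intro y x hx hy hs
    refine ⟨fun _ => x, fun i _ => hx, fun i hi => ?_, by simp⟩
    rw [Finset.mem_singleton] at hi
    subst hi
    simpa using hs
  | cons a s ha hs ih =>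
    intro y x hx hy hsum
    rw [Finset.sum_cons] at hsum
    have hya : P (y a) := hy a (by simp)
    have hys : ∀ i ∈ s, P (y i) := fun i hi => hy i (by simp [hi])
    obtain ⟨z₁, z₂, p1, p2, p3, p4, p5⟩ := RDC_two hS x (y a) (∑ i ∈ s, y i) hx hya (hS.sum s hs y hys) hsum
    obtain ⟨z, q1, q2, q3⟩ := ih y z₂ p2 hys p4
    have hne : ∀ i ∈ s, i ≠ a := fun i hi h => ha (h ▸ hi)
    refine ⟨Function.update z a z₁, ?_, ?_, ?_⟩
    · intro i hi
      rw [Finset.mem_cons] at hi
      rcases hi with h | h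
      · rw [h, Function.update_self]; exact p1
      · rw [Function.update_of_ne (hne i h)]; exact q1 i h
    · intro i hi
      rw [Finset.mem_cons] at hi
      rcases hi with h | h
      · rw [h, Function.update_self]; exact p3
      · rw [Function.update_of_ne (hne i h)]; exact q2 i h
    · rw [Finset.sum_cons, Function.update_self, Finset.sum_congr rfl (fun i hi => Function.update_of_ne (hne i hi) z₁ z), q3, p5]

end Pool.Agent.PVH
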