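import Pool.Agent.helper72.PV.SpecH

set_option autoImplicit false

open Finset

namespace Pool.Agent.PVH

open Pool.Agent.PV Pool.Agent.CZ

theorem SHD_fin (hSHC : SHC_stmt) (H : Type) [AddCommGroup H] (P : H → Prop) (g : H) (hS : SOG P g)
    (L : Type) [Fintype L] (θ : L → H) (hθ : ∀ l, P (θ l)) (S : Finset (L → ℤ)) :
    (∀ z ∈ S, ∑ l, z l • θ l = 0) →
    ∃ (L' : Type) (_ : Fintype L') (θ' : L' → H) (A : L → L' → ℕ), Ref P θ θ' A ∧
      ∀ z ∈ S, ∀ l', ∑ l, z l * (A l l' : ℤ) = 0 := by
  classical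
  induction S using Finset.induction_on with
  | empty =>
    intro _
    exact ⟨L, inferInstance, θ, _, Ref.id hθ, fun z hz => absurd hz (by simp)⟩
  | insert a S ha ih =>
    intro hz
    obtain ⟨L', i1, θ', A, hR, hA⟩ := ih fun z hzS => hz z (by simp [hzS])
    have h1 : ∑ i, (∑ l, a l * (A l i : ℤ)) • θ' i = 0 := by
      rw [hR.rel]
      exact hz a (by simp)
    obtain ⟨L'', i2, θ'', B, hR2, hB⟩ := hSHC H P g hS L' θ' hR.pos (fun i => ∑ l, a l * (A l i : ℤ)) h1
    refine ⟨L'', i2, θ'', _, hR.comp hR2, ?_⟩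
    intro z hzm l''
    rw [kill_comp]
    rw [Finset.mem_insert] at hzm
    rcases hzm with h | h
    · rw [h]
      exact hB l''
    · refine Finset.sum_eq_zero fun i _ => ?_
      rw [hA z h i, zero_mul]

theorem SHD (hSHC : SHC_stmt) : SHD_stmt := by
  intro H _ P g hS L _ θ hθ
  classical
  let R : Submodule ℤ (L → ℤ) :=
    { carrier := {z | ∑ l, z l • θ l = 0}
      add_mem' := by
        intro a b ha hb
        show ∑ l, (a l + b l) • θ l = 0
        have ha' : ∑ l, a l • θ l = 0 := ha
        have hb' : ∑ l, b l • θ l = 0 := hb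
        simp only [add_smul]
        rw [Finset.sum_add_distrib, ha', hb', add_zero]
      zero_mem' := by
        show ∑ l, (0 : ℤ) • θ l = 0
        simp
      smul_mem' := by
        intro c a ha
        show ∑ l, (c * a l) • θ l = 0
        have ha' : ∑ l, a l • θ l = 0 := ha
        simp only [mul_smul]
        rw [← Finset.smul_sum, ha', smul_zero] }
  obtain ⟨S, hSp⟩ := (IsNoetherian.noetherian R : R.FG)
  have hSR : ∀ z ∈ S, ∑ l, z l • θ l = 0 := by
    intro z hz
    have : z ∈ R := hSp ▸ Submodule.subset_span hz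
    exact this
  obtain ⟨L', i1, θ', A, hR, hA⟩ := SHD_fin hSHC H P g hS L θ hθ S hSR
  refine ⟨L', i1, θ', A, hR, ?_⟩
  let K : Submodule ℤ (L → ℤ) :=
    { carrier := {z | ∀ l', ∑ l, z l * (A l l' : ℤ) = 0}
      add_mem' := by
        intro a b ha hb l'
        show ∑ l, (a l + b l) * (A l l' : ℤ) = 0
        simp only [add_mul]
        rw [Finset.sum_add_distrib, ha l', hb l', add_zero]
      zero_mem' := by
        intro l'
        show ∑ l, (0 : ℤ) * (A l l' : ℤ) = 0
        simp
      smul_mem' := by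
        intro c a ha l'
        show ∑ l, (c * a l) * (A l l' : ℤ) = 0
        simp only [mul_assoc]
        rw [← Finset.mul_sum, ha l', mul_zero] }
  have hRK : R ≤ K := by
    rw [← hSp, Submodule.span_le]
    intro z hz
    exact hA z hz
  intro z hz
  exact hRK hz

end Pool.Agent.PVH
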