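import Pool.Agent.helper72.PV.SpecH

set_option autoImplicit false

open Finset

namespace Pool.Agent.PVH

open Pool.Agent.PV Pool.Agent.CZ

theorem SHG_sum {L : Type} [Fintype L] [DecidableEq L] {M : Type} [AddCommMonoid M] (l₀ : L) (F : L → M) :
    ∑ l', F l' = F l₀ + ∑ l' : {l // l ≠ l₀}, F l'.1 := by
  rw [← Finset.add_sum_erase univ F (mem_univ l₀)]
  congr 1
  refine Finset.sum_subtype (univ.erase l₀) (fun x => ?_) F
  simp

theorem SHG : SHG_stmt := by
  intro H _ P L _ θ x hθ l₀ N hN hx hθx hsum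
  classical
  let w : {l // l ≠ l₀} ⊕ {l // l ∈ N} → H :=
    Sum.elim (fun l => if l.1 ∈ N then θ l.1 - x l.1 else θ l.1) (fun l => x l.1)
  let A : L → {l // l ≠ l₀} ⊕ {l // l ∈ N} → ℕ := fun l =>
    Sum.elim (fun l' => if l = l'.1 then 1 else 0) (fun l' => if l = l₀ ∨ l = l'.1 then 1 else 0)
  refine ⟨{l // l ≠ l₀} ⊕ {l // l ∈ N}, inferInstance, w, A, ⟨?_, ?_⟩, ?_⟩
  · rintro (i | i)
    · show P (if i.1 ∈ N then θ i.1 - x i.1 else θ i.1)
      by_cases h : i.1 ∈ N
      · rw [if_pos h]; exact hθx _ h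
      · rw [if_neg h]; exact hθ _
    · exact hx _ i.2
  · intro l
    rw [Fintype.sum_sum_type]
    show θ l = ∑ l' : {l // l ≠ l₀}, (if l = l'.1 then 1 else 0) • (if l'.1 ∈ N then θ l'.1 - x l'.1 else θ l'.1) +
      ∑ l' : {l // l ∈ N}, (if l = l₀ ∨ l = l'.1 then 1 else 0) • x l'.1
    by_cases h : l = l₀
    · have e1 : ∑ l' : {l // l ≠ l₀}, (if l = l'.1 then 1 else 0) • (if l'.1 ∈ N then θ l'.1 - x l'.1 else θ l'.1) = 0 := by
        refine Finset.sum_eq_zero fun i _ => ?_
        rw [if_neg (fun h2 => i.2 (h2.symm.trans h)), zero_nsmul]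
      have e2 : ∑ l' : {l // l ∈ N}, (if l = l₀ ∨ l = l'.1 then 1 else 0) • x l'.1 = ∑ l' : {l // l ∈ N}, x l'.1 := by
        refine Finset.sum_congr rfl fun i _ => ?_
        rw [if_pos (Or.inl h), one_nsmul]
      rw [e1, e2, zero_add, h, hsum]
      exact Finset.sum_subtype N (fun _ => Iff.rfl) x
    · have e1 : ∑ l' : {l // l ≠ l₀}, (if l = l'.1 then 1 else 0) • (if l'.1 ∈ N then θ l'.1 - x l'.1 else θ l'.1)
          = if l ∈ N then θ l - x l else θ l := by
        rw [Finset.sum_eq_single (⟨l, h⟩ : {l // l ≠ l₀})]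
        · rw [if_pos rfl, one_nsmul]
        · intro b _ hb
          rw [if_neg (fun h2 => hb (Subtype.ext h2.symm)), zero_nsmul]
        · intro h2
          exact absurd (mem_univ _) h2
      have e2 : ∑ l' : {l // l ∈ N}, (if l = l₀ ∨ l = l'.1 then 1 else 0) • x l'.1 = if l ∈ N then x l else 0 := by
        by_cases hl : l ∈ N
        · rw [if_pos hl, Finset.sum_eq_single (⟨l, hl⟩ : {l // l ∈ N})]
          · rw [if_pos (Or.inr rfl), one_nsmul]
          · intro b _ hb
            rw [if_neg, zero_nsmul]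
            rintro (h2 | h2)
            · exact h h2
            · exact hb (Subtype.ext h2.symm)
          · intro h2
            exact absurd (mem_univ _) h2
        · rw [if_neg hl]
          refine Finset.sum_eq_zero fun b _ => ?_
          rw [if_neg, zero_nsmul]
          rintro (h2 | h2)
          · exact h h2
          · exact hl (h2 ▸ b.2)
      rw [e1, e2]
      by_cases hl : l ∈ N
      · rw [if_pos hl, if_pos hl, sub_add_cancel]
      · rw [if_neg hl, if_neg hl, add_zero]
  · intro z k hk hz0 hzk hzN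
    have z1 : ∀ l' : {l // l ≠ l₀}, ∑ l, z l * (A l (Sum.inl l') : ℤ) = z l'.1 := by
      intro l'
      rw [Finset.sum_eq_single l'.1]
      · show z l'.1 * (((if l'.1 = l'.1 then 1 else 0 : ℕ)) : ℤ) = z l'.1
        rw [if_pos rfl]; simp
      · intro b _ hb
        show z b * (((if b = l'.1 then 1 else 0 : ℕ)) : ℤ) = 0
        rw [if_neg hb]; simp
      · intro h; exact absurd (mem_univ _) h
    have z2 : ∀ l' : {l // l ∈ N}, ∑ l, z l * (A l (Sum.inr l') : ℤ) = k + z l'.1 := by
      intro l'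
      have hne : l'.1 ≠ l₀ := fun h => hN (h ▸ l'.2)
      rw [SHG_sum l₀]
      have e1 : z l₀ * (A l₀ (Sum.inr l') : ℤ) = k := by
        show z l₀ * (((if l₀ = l₀ ∨ l₀ = l'.1 then 1 else 0 : ℕ)) : ℤ) = k
        rw [if_pos (Or.inl rfl), hz0]; simp
      rw [e1]
      congr 1
      rw [Finset.sum_eq_single (⟨l'.1, hne⟩ : {l // l ≠ l₀})]
      · show z l'.1 * (((if l'.1 = l₀ ∨ l'.1 = l'.1 then 1 else 0 : ℕ)) : ℤ) = z l'.1
        rw [if_pos (Or.inr rfl)]; simp
      · intro b _ hb
        show z b.1 * (((if b.1 = l₀ ∨ b.1 = l'.1 then 1 else 0 : ℕ)) : ℤ) = 0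
        rw [if_neg]
        · simp
        · rintro (h2 | h2)
          · exact b.2 h2
          · exact hb (Subtype.ext h2)
      · intro h; exact absurd (mem_univ _) h
    have z3 : ∀ l' : {l // l ∈ N}, |k + z l'.1| < k := by
      intro l'
      have h1 := hzN _ l'.2
      have h2 := (abs_le.1 (hzk l'.1)).1
      rw [abs_of_nonneg (by omega)]
      omega
    refine ⟨?_, ?_⟩
    · rintro (l' | l')
      · rw [z1]; exact hzk _
      · rw [z2]; exact le_of_lt (z3 l')
    · have hcard : (univ.filter fun l' => |∑ l, z l * (A l l' : ℤ)| = k).card ≤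
          ((univ.filter fun l => |z l| = k).erase l₀).card := by
        refine Finset.card_le_card_of_injOn (Sum.elim (fun l' => l'.1) (fun l' => l'.1)) ?_ ?_
        · rintro (l' | l') hl'
          · have h1 : |∑ l, z l * (A l (Sum.inl l') : ℤ)| = k := (Finset.mem_filter.1 hl').2
            rw [z1] at h1
            show l'.1 ∈ ((((univ.filter fun l => |z l| = k).erase l₀) : Finset L) : Set L)
            rw [Finset.mem_coe, Finset.mem_erase, Finset.mem_filter]
            exact ⟨l'.2, mem_univ _, h1⟩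
          · have h1 : |∑ l, z l * (A l (Sum.inr l') : ℤ)| = k := (Finset.mem_filter.1 hl').2
            rw [z2] at h1
            exact absurd h1 (ne_of_lt (z3 l'))
        · rintro (a | a) ha (b | b) hb hab
          · exact congrArg Sum.inl (Subtype.ext hab)
          · have h1 : |∑ l, z l * (A l (Sum.inr b) : ℤ)| = k := (Finset.mem_filter.1 hb).2
            rw [z2] at h1
            exact absurd h1 (ne_of_lt (z3 b))
          · have h1 : |∑ l, z l * (A l (Sum.inr a) : ℤ)| = k := (Finset.mem_filter.1 ha).2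
            rw [z2] at h1
            exact absurd h1 (ne_of_lt (z3 a))
          · have h1 : |∑ l, z l * (A l (Sum.inr a) : ℤ)| = k := (Finset.mem_filter.1 ha).2
            rw [z2] at h1
            exact absurd h1 (ne_of_lt (z3 a))
      refine lt_of_le_of_lt hcard (Finset.card_erase_lt_of_mem ?_)
      rw [Finset.mem_filter]
      refine ⟨mem_univ _, ?_⟩
      rw [hz0, abs_of_nonneg (by omega)]

end Pool.Agent.PVH
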