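import Pool.Agent.helper72.PV.SpecH

set_option autoImplicit false

open Finset

namespace Pool.Agent.PVH

open Pool.Agent.PV Pool.Agent.CZ

theorem SHS_pos (hRDC : RDC_stmt) (hSHX : SHX_stmt) (hSHG : SHG_stmt) (H : Type) [AddCommGroup H]
    (P : H → Prop) (g : H) (hS : SOG P g) (L : Type) [Fintype L] (θ : L → H) (hθ : ∀ l, P (θ l))
    (z : L → ℤ) (k : ℤ) (hz : ∑ l, z l • θ l = 0) (hk : 1 ≤ k) (hzk : ∀ l, |z l| ≤ k) (l₀ : L)
    (hl₀ : z l₀ = k) :
    ∃ (L' : Type) (_ : Fintype L') (θ' : L' → H) (A : L → L' → ℕ), Ref P θ θ' A ∧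
        (∀ l', |∑ l, z l * (A l l' : ℤ)| ≤ k) ∧
        (univ.filter fun l' => |∑ l, z l * (A l l' : ℤ)| = k).card <
          (univ.filter fun l => |z l| = k).card := by
  classical
  let N : Finset L := univ.filter fun l => z l < 0
  have hmN : ∀ l, l ∈ N ↔ z l < 0 := fun l => by simp [N]
  have hN : l₀ ∉ N := by rw [hmN, hl₀]; omega
  let c : L → ℤ := fun l => if l = l₀ then 0 else if z l < 0 then k + z l else z l
  have hc0 : ∀ l, 0 ≤ c l := by
    intro l
    have h1 := (abs_le.1 (hzk l)).1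
    show 0 ≤ (if l = l₀ then 0 else if z l < 0 then k + z l else z l)
    split_ifs <;> omega
  have hterm : ∀ l, c l = z l + (if l = l₀ then -k else if l ∈ N then k else 0) := by
    intro l
    show (if l = l₀ then 0 else if z l < 0 then k + z l else z l) = _
    by_cases h : l = l₀
    · rw [if_pos h, if_pos h, h, hl₀]; ring
    · rw [if_neg h, if_neg h]
      by_cases h2 : z l < 0
      · rw [if_pos h2, if_pos ((hmN l).2 h2)]; ring
      · rw [if_neg h2, if_neg (fun h3 => h2 ((hmN l).1 h3))]; ring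
  have hsum : ∑ l, c l • θ l = k • (∑ l ∈ N, θ l - θ l₀) := by
    have e1 : ∑ l, c l • θ l = ∑ l, z l • θ l + ∑ l, (if l = l₀ then -k else if l ∈ N then k else 0) • θ l := by
      rw [← Finset.sum_add_distrib]
      exact Finset.sum_congr rfl fun l _ => by rw [hterm l, add_smul]
    have e2 : ∑ l, (if l = l₀ then -k else if l ∈ N then k else 0) • θ l
        = ∑ l, ((if l ∈ N then k • θ l else 0) + (if l = l₀ then -(k • θ l₀) else 0)) := by
      refine Finset.sum_congr rfl fun l _ => ?_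
      by_cases h : l = l₀
      · rw [if_pos h, if_pos h, h, if_neg hN, neg_smul, zero_add]
      · rw [if_neg h, if_neg h, add_zero]
        by_cases h2 : l ∈ N
        · rw [if_pos h2, if_pos h2]
        · rw [if_neg h2, if_neg h2, zero_smul]
    rw [e1, hz, zero_add, e2, Finset.sum_add_distrib, Finset.sum_ite_mem, Finset.univ_inter,
      Finset.sum_ite_eq' univ l₀ (fun _ => -(k • θ l₀)), if_pos (mem_univ _), smul_sub, Finset.smul_sum,
      sub_eq_add_neg]
  have hknat : ((k.toNat : ℕ) : ℤ) = k := Int.toNat_of_nonneg (by omega)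
  have hk1 : 1 ≤ k.toNat := by omega
  by_cases hc : ∀ l, c l = 0
  · have h1 : k • (∑ l ∈ N, θ l - θ l₀) = 0 := by
      rw [← hsum]
      exact Finset.sum_eq_zero fun l _ => by rw [hc l, zero_smul]
    have h2 : ∑ l ∈ N, θ l - θ l₀ = 0 := by
      refine hS.tf k.toNat _ hk1 ?_
      rw [← natCast_zsmul, hknat]
      exact h1
    have h3 : θ l₀ = ∑ l ∈ N, θ l := (sub_eq_zero.1 h2).symm
    obtain ⟨L', i1, θ', A, hR, hA⟩ := hSHX H P L θ hθ l₀ N hN h3
    have h4 : ∀ l', ∑ l, z l * (A l l' : ℤ) = 0 := by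
      refine hA z ?_ ?_
      · intro l hl hl2
        have h5 := hc l
        have h6 : ¬ z l < 0 := fun h => hl ((hmN l).2 h)
        have h7 : (if l = l₀ then 0 else if z l < 0 then k + z l else z l) = 0 := h5
        rw [if_neg hl2, if_neg h6] at h7
        exact h7
      · intro l hl
        have h5 := hc l
        have h6 : z l < 0 := (hmN l).1 hl
        have hl2 : l ≠ l₀ := fun h => hN (h ▸ hl)
        have h7 : (if l = l₀ then 0 else if z l < 0 then k + z l else z l) = 0 := h5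
        rw [if_neg hl2, if_pos h6] at h7
        rw [hl₀]
        omega
    refine ⟨L', i1, θ', A, hR, ?_, ?_⟩
    · intro l'
      rw [h4 l', abs_zero]
      omega
    · have e1 : (univ.filter fun l' => |∑ l, z l * (A l l' : ℤ)| = k) = ∅ := by
        rw [Finset.filter_eq_empty_iff]
        intro l' _
        rw [h4 l', abs_zero]
        omega
      rw [e1, Finset.card_empty, Finset.card_pos]
      refine ⟨l₀, ?_⟩
      rw [Finset.mem_filter]
      refine ⟨mem_univ _, ?_⟩
      rw [hl₀, abs_of_nonneg (by omega)]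
  · push Not at hc
    obtain ⟨l₁, hl₁⟩ := hc
    have hcn : ∀ l, ((c l).toNat : ℤ) = c l := fun l => Int.toNat_of_nonneg (hc0 l)
    have h1 : P (∑ l, (c l).toNat • θ l) := by
      refine hS.sum_nsmul univ (fun l => (c l).toNat) θ (fun i _ => hθ i) ⟨l₁, mem_univ _, ?_⟩
      intro h
      apply hl₁
      rw [← hcn l₁]
      have h' : (c l₁).toNat = 0 := h
      rw [h']
      rfl
    have h2 : ∑ l, (c l).toNat • θ l = k.toNat • (∑ l ∈ N, θ l - θ l₀) := by
      rw [← natCast_zsmul (∑ l ∈ N, θ l - θ l₀), hknat, ← hsum]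
      exact Finset.sum_congr rfl fun l _ => by rw [← natCast_zsmul, hcn]
    rw [h2] at h1
    have h3 : P (∑ l ∈ N, θ l - θ l₀) := hS.unperf _ _ hk1 h1
    have hNn : N.Nonempty := by
      rw [Finset.nonempty_iff_ne_empty]
      intro h
      rw [h, Finset.sum_empty, zero_sub] at h3
      apply hS.zero
      have h4 := hS.add _ _ h3 (hθ l₀)
      rwa [neg_add_cancel] at h4
    obtain ⟨x, x1, x2, x3⟩ := hRDC H P g hS L N hNn θ (θ l₀) (hθ l₀) (fun i _ => hθ i) h3
    obtain ⟨L', i1, θ', A, hR, hA⟩ := hSHG H P L θ x hθ l₀ N hN x1 x2 x3.symm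
    obtain ⟨h5, h6⟩ := hA z k hk hl₀ hzk (fun l hl => (hmN l).1 hl)
    exact ⟨L', i1, θ', A, hR, h5, h6⟩

theorem SHS (hRDC : RDC_stmt) (hSHX : SHX_stmt) (hSHG : SHG_stmt) : SHS_stmt := by
  intro H _ P g hS L _ θ hθ z k hz hk hzk l₀ hl₀
  rcases abs_eq (by omega : (0 : ℤ) ≤ k) |>.1 hl₀ with h | h
  · exact SHS_pos hRDC hSHX hSHG H P g hS L θ hθ z k hz hk hzk l₀ h
  · have h1 : ∑ l, (-z) l • θ l = 0 := by
      simp only [Pi.neg_apply, neg_smul]
      rw [Finset.sum_neg_distrib, hz, neg_zero]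
    have h2 : ∀ l, |(-z) l| ≤ k := fun l => by rw [Pi.neg_apply, abs_neg]; exact hzk l
    have h3 : (-z) l₀ = k := by rw [Pi.neg_apply, h, neg_neg]
    obtain ⟨L', i1, θ', A, hR, h5, h6⟩ := SHS_pos hRDC hSHX hSHG H P g hS L θ hθ (-z) k h1 hk h2 l₀ h3
    have e : ∀ l', |∑ l, (-z) l * (A l l' : ℤ)| = |∑ l, z l * (A l l' : ℤ)| := by
      intro l'
      simp only [Pi.neg_apply, neg_mul]
      rw [Finset.sum_neg_distrib, abs_neg]
    refine ⟨L', i1, θ', A, hR, ?_, ?_⟩
    · intro l'
      rw [← e]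
      exact h5 l'
    · have e2 : (univ.filter fun l' => |∑ l, (-z) l * (A l l' : ℤ)| = k) = (univ.filter fun l' => |∑ l, z l * (A l l' : ℤ)| = k) :=
        Finset.filter_congr fun l' _ => by rw [e]
      have e3 : (univ.filter fun l => |(-z) l| = k) = (univ.filter fun l => |z l| = k) :=
        Finset.filter_congr fun l _ => by rw [Pi.neg_apply, abs_neg]
      rw [e2, e3] at h6
      exact h6

end Pool.Agent.PVH
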