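import Pool.Agent.helper72.PV.SpecH

set_option autoImplicit false

open Finset

namespace Pool.Agent.PVH

open Pool.Agent.PV Pool.Agent.CZ

theorem SHX_sum {L : Type} [Fintype L] [DecidableEq L] {M : Type} [AddCommMonoid M] (l₀ : L) (F : L → M) :
    ∑ l', F l' = F l₀ + ∑ l' : {l // l ≠ l₀}, F l'.1 := by
  rw [← Finset.add_sum_erase univ F (mem_univ l₀)]
  congr 1
  refine Finset.sum_subtype (univ.erase l₀) (fun x => ?_) F
  simp

theorem SHX : SHX_stmt := by
  intro H _ P L _ θ hθ l₀ N hN hsum
  classical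
  refine ⟨{l // l ≠ l₀}, inferInstance, fun l' => θ l'.1,
    fun l l' => if l = l₀ then (if l'.1 ∈ N then 1 else 0) else (if l = l'.1 then 1 else 0), ⟨fun i => hθ _, ?_⟩, ?_⟩
  · intro l
    by_cases h : l = l₀
    · simp only [if_pos h]
      rw [h, hsum]
      have h1 : ∑ l ∈ N, θ l = ∑ l, if l ∈ N then θ l else 0 := by
        rw [Finset.sum_ite_mem, Finset.univ_inter]
      rw [h1, SHX_sum l₀, if_neg hN, zero_add]
      refine Finset.sum_congr rfl fun i _ => ?_
      by_cases hi : i.1 ∈ N
      · rw [if_pos hi, if_pos hi, one_nsmul]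
      · rw [if_neg hi, if_neg hi, zero_nsmul]
    · simp only [if_neg h]
      rw [Finset.sum_eq_single (⟨l, h⟩ : {l // l ≠ l₀})]
      · simp
      · intro b _ hb
        rw [if_neg, zero_nsmul]
        intro h2
        exact hb (Subtype.ext h2.symm)
      · intro h2
        exact absurd (mem_univ _) h2
  · intro z hz1 hz2 l'
    rw [SHX_sum l₀]
    simp only [if_true]
    have h2 : ∑ l : {l // l ≠ l₀}, z l.1 * (((if l.1 = l₀ then (if l'.1 ∈ N then 1 else 0) else (if l.1 = l'.1 then 1 else 0)) : ℕ) : ℤ) = z l'.1 := by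
      rw [Finset.sum_eq_single l']
      · rw [if_neg l'.2, if_pos rfl]
        simp
      · intro b _ hb
        rw [if_neg b.2, if_neg (fun h => hb (Subtype.ext h))]
        simp
      · intro h
        exact absurd (mem_univ _) h
    rw [h2]
    by_cases h : l'.1 ∈ N
    · rw [if_pos h, hz2 _ h]
      simp
    · rw [if_neg h, hz1 _ h l'.2]
      simp

end Pool.Agent.PVH
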